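import Pool.Agent.Helper68.TG.Goals

/-!
# PROJECT TG (MP_a41896_nt): packet GCF
-/

set_option autoImplicit false

open MvPolynomial

namespace Pool.Agent.Helper84.TG.GCF

theorem exists_irr {κ L σ : Type} [Field κ] [Field L] [Algebra κ L] (X : σ → L)
    (g : MvPolynomial σ κ) (hg : g ≠ 0) (h0 : aeval X g = 0) :
    ∃ p : MvPolynomial σ κ, Irreducible p ∧ p ∣ g ∧ aeval X p = 0 := by
  obtain ⟨s, hs, hass⟩ := WfDvdMonoid.exists_factors g hg
  obtain ⟨u, hu⟩ := hass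
  have h1 : aeval X s.prod = 0 := by
    have h2 : aeval X s.prod * aeval X (u : MvPolynomial σ κ) = 0 := by
      rw [← map_mul, hu, h0]
    have h3 : aeval X (u : MvPolynomial σ κ) ≠ 0 :=
      (u.isUnit.map (aeval X : MvPolynomial σ κ →ₐ[κ] L)).ne_zero
    exact (mul_eq_zero.1 h2).resolve_right h3
  rw [map_multiset_prod, Multiset.prod_eq_zero_iff] at h1
  obtain ⟨p, hp, hp0⟩ := Multiset.mem_map.1 h1
  refine ⟨p, hs p hp, ?_, hp0⟩
  rw [← hu]
  exact (Multiset.dvd_prod hp).mul_right _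

theorem exists_mon {κ σ : Type} [Field κ] (p : MvPolynomial σ κ) (hp : Irreducible p) :
    ∃ m : σ →₀ ℕ, m ≠ 0 ∧ coeff m p ≠ 0 := by
  by_contra hne
  push Not at hne
  have h1 : p = C (coeff 0 p) := by
    classical
    ext m
    rw [coeff_C]
    by_cases hm : 0 = m
    · rw [if_pos hm, hm]
    · rw [if_neg hm, hne m (fun h => hm h.symm)]
  have h2 : coeff 0 p ≠ 0 := by
    intro h
    rw [h, map_zero] at h1
    exact hp.ne_zero h1
  apply hp.not_isUnit
  rw [h1]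
  exact (isUnit_iff_ne_zero.2 h2).map C

theorem t_GCF (hE : Pool.Agent.Helper42.T3.ELIM) : Pool.Agent.Helper68.TG.GCF := by
  intro κ L _ _ _ σ _ _ a X g f hX hg hg0 hf0
  obtain ⟨p, hp, hpg, hp0⟩ := exists_irr X g hg hg0
  have hpf : p ∣ f := by
    by_contra hnd
    obtain ⟨A, B, r, hr, hdeg, hab⟩ := hE κ σ a p f hp hnd
    have hr0 : aeval X r = 0 := by
      rw [← hab, map_add, map_mul, map_mul, hp0, hf0, mul_zero, mul_zero, add_zero]
    have hv : (r.vars : Set σ) ⊆ Set.range (fun i : {i : σ // i ≠ a} => (i : σ)) := by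
      intro i hi
      refine ⟨⟨i, ?_⟩, rfl⟩
      rintro rfl
      exact mem_vars_iff_degreeOf_ne_zero.1 hi hdeg
    obtain ⟨r', hr'⟩ := exists_rename_eq_of_vars_subset_range r
      (fun i : {i : σ // i ≠ a} => (i : σ)) Subtype.val_injective hv
    rw [← hr', aeval_rename] at hr0
    have h2 : r' = 0 := hX.eq_zero_of_aeval_eq_zero r' hr0
    rw [h2, map_zero] at hr'
    exact hr hr'.symm
  obtain ⟨m, hm, hc⟩ := exists_mon p hp
  obtain ⟨q0, hq0⟩ := hpg
  obtain ⟨r0, hr0⟩ := hpf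
  have hcc : (C (coeff m p)⁻¹ : MvPolynomial σ κ) * C (coeff m p) = 1 := by
    rw [← C_mul, inv_mul_cancel₀ hc, C_1]
  refine ⟨C (coeff m p)⁻¹ * p, C (coeff m p) * q0, C (coeff m p) * r0, m, ?_, ?_, hm, ?_⟩
  · calc g = p * q0 := hq0
      _ = (C (coeff m p)⁻¹ * C (coeff m p)) * (p * q0) := by rw [hcc, one_mul]
      _ = _ := by ring
  · calc f = p * r0 := hr0
      _ = (C (coeff m p)⁻¹ * C (coeff m p)) * (p * r0) := by rw [hcc, one_mul]
      _ = _ := by ring
  · rw [coeff_C_mul, inv_mul_cancel₀ hc]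

end Pool.Agent.Helper84.TG.GCF
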